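import Pool.Agent.H84.FK.Targets2

/-!
# MP_85c4d1_al, D1: a least counterexample has no two commuting nontrivial normal subgroups
-/

set_option autoImplicit false
set_option linter.unusedVariables false

namespace Pool.Agent.H70.FKD1

open Pool.Agent.H84.FK

theorem pf_d1 : T_D1 := by
  intro G _ A A0 B B0 h N1 N2 n1 n2 hN1 hN2 hc
  have := n1
  have := n2
  have hM : N1 ⊓ N2 = ⊥ := by
    refine h.quo _ inferInstance ?_
    refine Group.isSolvable_of_comm ?_
    rintro ⟨x, hx⟩ ⟨y, hy⟩
    exact Subtype.ext (hc x hx.1 y hy.2)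
  have s1 : Group.IsSolvable (G ⧸ N1) := h.quot N1 hN1
  have s2 : Group.IsSolvable (G ⧸ N2) := h.quot N2 hN2
  let f : G →* (G ⧸ N1) × (G ⧸ N2) := (QuotientGroup.mk' N1).prod (QuotientGroup.mk' N2)
  have hf : Function.Injective f := by
    rw [injective_iff_map_eq_one]
    intro x hx
    have h1 : (QuotientGroup.mk' N1) x = 1 := congrArg Prod.fst hx
    have h2 : (QuotientGroup.mk' N2) x = 1 := congrArg Prod.snd hx
    have h3 : x ∈ N1 ⊓ N2 := ⟨(QuotientGroup.eq_one_iff x).1 h1, (QuotientGroup.eq_one_iff x).1 h2⟩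
    rw [hM] at h3
    exact h3
  exact h.ns (Group.isSolvable_of_isSolvable_injective hf)

end Pool.Agent.H70.FKD1
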